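import Pool.Agent.Lib_helper15.AQ.PFM.Defs
import Pool.Agent.Lib_helper18.AQ.M.DG
import Pool.Agent.Lib_helper18.AQ.M.FD
import Pool.Agent.Lib_helper15.UP.Defs

/-!
# AQ (MP_892e4c_nt), first moments for the paths (helper15): definitions

Port of `Lib_helper15/UP`.  `Vec 10` is used as `PolyK 11`; the edge `10` is open
(`det (z, (1,0)) = -z.2`), it is not in the sets of edges `feD`, `feU`.  Old notions reused
(Pool.Agent.UPA): `tp`, `exW`, `feD`, `feU`, `vqU`, `cs`, `cr`, `FamO`, `LawO`, `edP`.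
-/

set_option autoImplicit false

namespace Pool.Agent.AQ.UPA

open Finset Pool.Agent.PENT Pool.Agent.AQ.NC Pool.Agent.AQ.PFM
open Pool.Agent.PENK (PolyK Wts dl mL ich EquiF prs lw L1 Rf)
open Pool.Agent.PFM (DE ph LocS Bo Un)
open Pool.Agent.UPA (tp exW feD feU vqU cs cr FamO LawO edP)
open Pool.Agent.AQ.PENK (nz)

variable [Cst]

/-- the forms of determinant `D` -/
noncomputable scoped instance fdI : Pool.Agent.AQ.PENK.FD := PENM.fd 0

theorem fd_D : Pool.Agent.AQ.PENK.FD.D = D := by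
  show PENM.DJ 0 = D
  unfold PENM.DJ
  rw [if_neg (by decide)]

theorem fd_N0 : Pool.Agent.AQ.PENK.FD.N0 = PENM.NZ := rfl

/-- split primes in the two notations -/
theorem sp_iff {p : ℕ} (hp : p.Prime) (h : PENM.NZ < p) : Pool.Agent.AQ.PENK.Sp p ↔ Sp p :=
  PENM.Sp_iff 0 hp h

/-! ### the end vector -/

theorem ex_ws : ∃ w : ℤ × ℤ, dt z w = 1 ∧ w.1 ≤ 0 := by
  obtain ⟨a, b, h⟩ := z_cop
  have hz : 0 < z.1 := z1_pos
  refine ⟨(-b - |b| * z.1, a - |b| * z.2), ?_, ?_⟩
  · unfold dt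
    simp only
    linear_combination h
  · simp only
    have h1 : |b| * 1 ≤ |b| * z.1 := mul_le_mul_of_nonneg_left hz (abs_nonneg b)
    have h2 := neg_abs_le b
    linarith

/-- a vector with `det (z, ws) = 1`, `ws.1 ≤ 0` -/
noncomputable def ws : ℤ × ℤ := ex_ws.choose

theorem ws_det : dt z ws = 1 := ex_ws.choose_spec.1

theorem ws_fst : ws.1 ≤ 0 := ex_ws.choose_spec.2

/-! ### families -/

/-- fixed: `u_0 = (1,0)`, `u_10 = z` -/
def cD (j : Fin 11) : Option ℤ × Option ℤ :=
  if j = 0 then (some 1, some 0) else if j = 10 then (some z.1, some z.2) else (none, none)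

/-- coordinates with `u_0 = (1,0)`, `u_1 = (*, d_0)`, `u_9 = * z + d_9 ws`, `u_10 = z` -/
def cU (d0 d9 : ℕ) (j : Fin 11) : Option ℤ × Option ℤ :=
  if j = 0 then (some 1, some 0) else if j = 10 then (some z.1, some z.2)
  else if j = 1 then (none, some (d0 : ℤ)) else if j = 9 then (none, some (d9 : ℤ))
  else (none, none)

/-- the polygon with the coordinates `u`: `u_9 = u_9.1 z + u_9.2 ws` -/
noncomputable def pol9 (u : PolyK 11) : PolyK 11 := fun j =>
  if j = 9 then ((u 9).1 * z.1 + (u 9).2 * ws.1, (u 9).1 * z.2 + (u 9).2 * ws.2) else u j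

/-- the law of the family with fixed end factors -/
noncomputable def LawU (d0 d9 p : ℕ) : Finset (PolyK 11) := (LawO (cU d0 d9) p).image pol9

/-! ### weights -/

/-- the weights of `W` as `Wts 11`, raised to the power `1 + η` -/
noncomputable def WD (η : ℝ) : Pool.Agent.PENK.Wts 11 where
  al := fun j => if j = 10 then 0 else alE 10 j.val ^ (1 + η)
  be := fun i => beV 10 i.val ^ (1 + η)
  bo := fun i => boV i.val

/-- the weights of `W (W / ν_j)^η` -/
noncomputable def WN (j : Fin 10) (η : ℝ) : Pool.Agent.PENK.Wts 11 where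
  al := fun i => if i = 10 then 0 else
    alE 10 i.val ^ (1 + η) * (if i.val + 1 = j.val then PENM.wS0 j.val ^ (-η)
      else if i.val = j.val + 1 then PENM.wS1 j.val ^ (-η) else 1)
  be := fun i => beV 10 i.val ^ (1 + η) * (if i.val = j.val then PENM.wS0 j.val ^ (-η)
      else if i.val = j.val + 1 then PENM.wS1 j.val ^ (-η) else 1)
  bo := fun i => boV i.val

theorem WD_eq (η : ℝ) : WD η = Pool.Agent.UPA.WD η := rfl

theorem WN_eq (j : Fin 10) (η : ℝ) : WN j η = Pool.Agent.UPA.WN j η := rfl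

/-- the part of the vertices -/
noncomputable def vxP (W : Pool.Agent.PENK.Wts 11) (fe vq : Finset (Fin 11)) (P0 P : ℕ)
    (u : PolyK 11) : ℝ :=
  ∏ l ∈ (prs (nz 11) P).filter (fun l => ¬ l ∣ DE fe u), (1 - v1 W P0 vq u l)

end Pool.Agent.AQ.UPA
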