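import Pool.Agent.Lib_helper15.AQ.UP.Defs
import Pool.Agent.Lib_helper15.UP.Facts

/-!
# AQ (MP_892e4c_nt), first moments for the paths (helper15): basic facts
-/

set_option autoImplicit false

namespace Pool.Agent.AQ.UPA

open Finset Pool.Agent.PENT Pool.Agent.AQ.NC Pool.Agent.AQ.PFM
open Pool.Agent.PENK (PolyK Wts dl mL ich EquiF prs lw L1 Rf)
open Pool.Agent.PFM (DE ph LocS Bo Un)
open Pool.Agent.UPA (tp exW feD feU vqU cs cr FamO LawO edP mem_feD mem_feU mem_vqU)
open Pool.Agent.AQ.PENK (nz)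

variable [Cst]

theorem dn_dE (u : Vec 10) (j : Fin 11) (hj : j ≠ 10) : dn (tp u) j = dE u (j.val + 1) := by
  have h1 : j.val < 10 := by
    have := j.isLt
    have h2 : j.val ≠ 10 := fun h => hj (Fin.ext h)
    omega
  have h3 : (j + 1 : Fin 11) = ⟨j.val + 1, by omega⟩ := by
    apply Fin.ext
    rw [Fin.val_add]
    show (j.val + 1) % 11 = j.val + 1
    exact Nat.mod_eq_of_lt (by omega)
  show Pool.Agent.PENK.dn (tp u) j = _
  unfold Pool.Agent.PENK.dn dl dE tp
  rw [dif_pos (by omega : 1 ≤ j.val + 1 ∧ j.val + 1 ≤ 10)]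
  show (dt (u j) (u (j + 1 : Fin 11))).natAbs = _
  rw [h3]
  rfl

/-- the vertices are primitive modulo every prime -/
theorem gp_prim {p : Prm 10} {X : ℕ} {u : Vec 10} (h : GP p X u) (i : Fin 11) {l : ℕ}
    (hl : l.Prime) : ¬ ((l : ℤ) ∣ (u i).1 ∧ (l : ℤ) ∣ (u i).2) := by
  rintro ⟨h1, h2⟩
  have key : ∀ v w : ℤ × ℤ, ((l : ℤ) ∣ v.1 ∧ (l : ℤ) ∣ v.2) → (l : ℤ) ∣ dt v w := by
    intro v w hv
    unfold dt
    exact dvd_sub (hv.1.mul_right _) (hv.2.mul_right _)
  have key' : ∀ v w : ℤ × ℤ, ((l : ℤ) ∣ w.1 ∧ (l : ℤ) ∣ w.2) → (l : ℤ) ∣ dt v w := by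
    intro v w hv
    unfold dt
    exact dvd_sub (hv.2.mul_left _) (hv.1.mul_left _)
  have hi := i.isLt
  by_cases i0 : i.val = 0
  · have : i = (0 : Fin 11) := Fin.ext i0
    rw [this] at h1
    have h0 : u (0 : Fin 11) = (1, 0) := h.first
    rw [h0] at h1
    exact hl.one_lt.ne' (by exact_mod_cast Int.eq_one_of_dvd_one (by positivity) h1)
  · by_cases i10 : i.val = 10
    · have : i = (10 : Fin 11) := Fin.ext i10
      rw [this] at h1 h2
      have h0 : u (10 : Fin 11) = z := h.last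
      rw [h0] at h1 h2
      have h3 := z_cop.isUnit_of_dvd' h1 h2
      rw [Int.isUnit_iff] at h3
      have h4 := hl.one_lt
      omega
    · have hc := h.cop i.val (i.val + 1) (by omega) (by omega) (by omega)
      have d1 : l ∣ dE u i.val := by
        unfold dE
        rw [dif_pos (by omega : 1 ≤ i.val ∧ i.val ≤ 10)]
        exact Int.natCast_dvd.1 (key' _ _ ⟨h1, h2⟩)
      have d2 : l ∣ dE u (i.val + 1) := by
        unfold dE
        rw [dif_pos (by omega : 1 ≤ i.val + 1 ∧ i.val + 1 ≤ 10)]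
        refine Int.natCast_dvd.1 ?_
        show (l : ℤ) ∣ dt (u ⟨i.val + 1 - 1, _⟩) (u ⟨i.val + 1, _⟩)
        have e : (⟨i.val + 1 - 1, by omega⟩ : Fin 11) = i := Fin.ext (by simp)
        exact key _ _ (by rw [show (⟨i.val + 1 - 1, by omega⟩ : Fin (10 + 1)) = i from e]; exact ⟨h1, h2⟩)
      have := Nat.dvd_gcd d1 d2
      rw [hc] at this
      exact hl.one_lt.ne' (Nat.dvd_one.1 this)

theorem gp_dn_dp {p : Prm 10} {X : ℕ} {u : Vec 10} (h : GP p X u) (j : Fin 11) (hj : j ≠ 10) :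
    DP (PP X) (dn (tp u) j) := by
  rw [dn_dE u j hj]
  have h2 : j.val ≠ 10 := fun h => hj (Fin.ext h)
  exact h.dp _ (by omega) (by have := j.isLt; omega)

theorem gp_isP {p : Prm 10} {X : ℕ} (hX : PENM.NZ ≤ ⌊PP X⌋₊) {u : Vec 10} (h : GP p X u)
    {E : Finset (Fin 11)} (hE : E ⊆ feD) : IsP E ⌊PP X⌋₊ (tp u) := by
  have hPP : 0 < PP X := Real.exp_pos _
  refine ⟨?_, ?_, ?_, ?_, hX⟩
  · intro i
    rw [Int.isCoprime_iff_gcd_eq_one]
    by_contra hne
    obtain ⟨l, hl, hd⟩ := Nat.exists_prime_and_dvd hne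
    exact gp_prim h i hl ⟨(Int.natCast_dvd_natCast.2 hd).trans (Int.gcd_dvd_left _ _),
      (Int.natCast_dvd_natCast.2 hd).trans (Int.gcd_dvd_right _ _)⟩
  · intro j hj
    exact (gp_dn_dp h j (mem_feD.1 (hE hj))).1
  · intro j hj l hl hd
    obtain ⟨a, b⟩ := (gp_dn_dp h j (mem_feD.1 (hE hj))).2 l hl hd
    have h3 : ⌊PP X⌋₊ < l := (Nat.floor_lt hPP.le).2 b
    exact ⟨h3, (sp_iff hl (lt_of_le_of_lt hX h3)).2 a⟩
  · intro i hi' j hj' hij
    have hi := mem_feD.1 (hE hi')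
    have hj := mem_feD.1 (hE hj')
    rw [dn_dE u i hi, dn_dE u j hj]
    have h1 : i.val ≠ 10 := fun h => hi (Fin.ext h)
    have h2 : j.val ≠ 10 := fun h => hj (Fin.ext h)
    have h3 := i.isLt
    have h4 := j.isLt
    rcases Nat.lt_or_ge i.val j.val with h5 | h5
    · exact h.cop _ _ (by omega) (by omega) (by omega)
    · have h6 : i.val ≠ j.val := fun h => hij (Fin.ext h)
      exact (h.cop _ _ (by omega) (by omega) (by omega)).symm

theorem feU_sub : feU ⊆ feD := by decide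

theorem DE_feU (u : Vec 10) : DE feU (tp u) = Dint u := by
  unfold DE Dint
  refine Finset.prod_nbij' (fun j : Fin 11 => j.val + 1)
    (fun i => if h : i - 1 < 11 then (⟨i - 1, h⟩ : Fin 11) else 0) ?_ ?_ ?_ ?_ ?_
  · intro j hj
    rw [mem_feU] at hj
    rw [Finset.mem_Icc]
    constructor
    · omega
    · show j.val + 1 ≤ 9
      omega
  · intro i hi
    rw [Finset.mem_Icc] at hi
    have hi2 : i ≤ 9 := hi.2
    rw [dif_pos (by omega), mem_feU]
    constructor
    · show 1 ≤ i - 1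
      omega
    · show i - 1 ≤ 8
      omega
  · intro j hj
    have := j.isLt
    simp
  · intro i hi
    rw [Finset.mem_Icc] at hi
    have hi2 : i ≤ 9 := hi.2
    rw [dif_pos (by omega)]
    show i - 1 + 1 = i
    omega
  · intro j hj
    rw [mem_feU] at hj
    exact dn_dE u j (fun h => by rw [h] at hj; exact absurd hj.2 (by decide))

theorem DE_feD (u : Vec 10) : DE feD (tp u) = Dall u := by
  unfold DE Dall
  refine Finset.prod_nbij' (fun j : Fin 11 => j.val + 1)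
    (fun i => if h : i - 1 < 11 then (⟨i - 1, h⟩ : Fin 11) else 0) ?_ ?_ ?_ ?_ ?_
  · intro j hj
    have h1 := mem_feD.1 hj
    have h2 : j.val ≠ 10 := fun h => h1 (Fin.ext h)
    have := j.isLt
    rw [Finset.mem_Icc]
    omega
  · intro i hi
    rw [Finset.mem_Icc] at hi
    rw [dif_pos (by omega), mem_feD]
    intro h
    have := congrArg Fin.val h
    simp at this
    omega
  · intro j hj
    have := j.isLt
    simp
  · intro i hi
    rw [Finset.mem_Icc] at hi
    rw [dif_pos (by omega)]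
    show i - 1 + 1 = i
    omega
  · intro j hj
    exact dn_dE u j (mem_feD.1 hj)

/-- the separation in terms of norms -/
theorem gp_dn_ge {p : Prm 10} {X : ℕ} {u : Vec 10} (h : GP p X u) (j : Fin 11) (hj : j ≠ 10) :
    p.c1 * ((nm (u j) : ℝ) * (nm (u (j + 1 : Fin 11)) : ℝ)) ≤ (dn (tp u) j : ℝ) := by
  have h1 : j.val ≠ 10 := fun h => hj (Fin.ext h)
  have hlt := j.isLt
  have h3 : (j + 1 : Fin 11).val = j.val + 1 := by
    rw [Fin.val_add]
    show (j.val + 1) % 11 = j.val + 1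
    exact Nat.mod_eq_of_lt (by omega)
  have h4 := h.sep j (j + 1 : Fin 11) (by
    rw [Fin.lt_def, h3]; omega)
  refine h4.trans ?_
  show _ ≤ ((Pool.Agent.PENK.dn (tp u) j : ℕ) : ℝ)
  unfold Pool.Agent.PENK.dn dl tp
  rw [Nat.cast_natAbs]
  push_cast
  unfold sgn
  split_ifs
  · rw [neg_one_mul]
    exact neg_le_abs _
  · rw [one_mul]
    exact le_abs_self _

theorem nm_z_pos : 1 ≤ nm z := by
  have h1 := z1_pos
  have h2 := z_two
  unfold nm
  omega

theorem nm_pos {p : Prm 10} {X : ℕ} {u : Vec 10} (h : GP p X u) (i : Fin 11) : 1 ≤ nm (u i) := by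
  have hi := i.isLt
  by_cases i0 : i.val = 0
  · have e : i = (0 : Fin 11) := Fin.ext i0
    have h0 : u (0 : Fin 11) = (1, 0) := h.first
    rw [e, h0]; decide
  · by_cases i10 : i.val = 10
    · have e : i = (10 : Fin 11) := Fin.ext i10
      have h0 : u (10 : Fin 11) = z := h.last
      rw [e, h0]; exact nm_z_pos
    · obtain ⟨a, b⟩ := h.pos i (by omega) (by omega)
      unfold nm
      omega

/-- the first end: `u_1 = (*, d_0)` -/
theorem gp_u1 {p : Prm 10} {X : ℕ} {u : Vec 10} (h : GP p X u) :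
    (u (1 : Fin 11)).2 = (dE u 1 : ℤ) ∧ 0 < (u (1 : Fin 11)).1 := by
  have h0 : u (0 : Fin 11) = (1, 0) := h.first
  obtain ⟨a, b⟩ := h.pos (1 : Fin 11) (by decide) (by decide)
  refine ⟨?_, a⟩
  unfold dE
  rw [dif_pos (by omega : 1 ≤ 1 ∧ 1 ≤ 10)]
  show (u (1 : Fin 11)).2 = ((dt (u (0 : Fin 11)) (u (1 : Fin 11))).natAbs : ℤ)
  rw [h0]
  unfold dt
  simp only [one_mul, zero_mul, sub_zero]
  omega

/-- the last end: `det (z, u_9) = d_9` -/
theorem gp_u9 {p : Prm 10} {X : ℕ} (hc : 0 < p.c1) {u : Vec 10} (h : GP p X u) :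
    dt z (u (9 : Fin 11)) = (dE u 10 : ℤ) := by
  have h0 : u (10 : Fin 11) = z := h.last
  have h1 := h.sep (9 : Fin 11) (10 : Fin 11) (by decide)
  have h2 := nm_pos h (9 : Fin 11)
  have h3 := nm_pos h (10 : Fin 11)
  have hs : sgn (9 : Fin 11).val (10 : Fin 11).val = -1 := by
    unfold sgn
    rw [if_pos]
    exact ⟨by decide, by decide⟩
  rw [hs, h0] at h1
  have h2' : (1 : ℝ) ≤ (nm (u (9 : Fin 11)) : ℝ) := by exact_mod_cast h2
  have h3' : (1 : ℝ) ≤ (nm z : ℝ) := by exact_mod_cast nm_z_pos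
  have h4 : (0 : ℝ) < p.c1 * ((nm (u (9 : Fin 11)) : ℝ) * (nm z : ℝ)) := by positivity
  have h5 : ((dt (u (9 : Fin 11)) z : ℤ) : ℝ) < 0 := by linarith
  have h6 : dt (u (9 : Fin 11)) z < 0 := by exact_mod_cast h5
  have h7 : dt z (u (9 : Fin 11)) = - dt (u (9 : Fin 11)) z := by unfold dt; ring
  have h8 : (dE u 10 : ℤ) = ((dt (u (9 : Fin 11)) z).natAbs : ℤ) := by
    unfold dE
    rw [dif_pos (by omega : 1 ≤ 10 ∧ 10 ≤ 10)]
    show ((dt (u (9 : Fin 11)) (u (10 : Fin 11))).natAbs : ℤ) = _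
    rw [h0]
  rw [h8, h7]
  omega

/-- a vector with `det (z, v) = d` is `t z + d ws` -/
theorem vec_ws (v : ℤ × ℤ) : v = (dt v ws * z.1 + dt z v * ws.1, dt v ws * z.2 + dt z v * ws.2) := by
  have h := ws_det
  unfold dt at h
  unfold dt
  ext
  · simp only
    linear_combination (-v.1) * h
  · simp only
    linear_combination (-v.2) * h

/-- the coordinate `t` of a vector `v = t z + d ws` with `v.1 > 0`, `d > 0` is at least `1` -/
theorem t_pos {v : ℤ × ℤ} (hv : 0 < v.1) (hd : 0 ≤ dt z v) : 1 ≤ dt v ws := by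
  have h1 := congrArg Prod.fst (vec_ws v)
  simp only at h1
  have h2 := ws_fst
  have h3 := z1_pos
  by_contra hne
  have h4 : dt v ws ≤ 0 := by omega
  nlinarith

theorem t_le {v : ℤ × ℤ} (hv : 0 < v.1) (hv2 : 0 < v.2) (hd : 0 ≤ dt z v) :
    dt v ws ≤ nm v + |ws.1| * dt z v := by
  have h1 := congrArg Prod.fst (vec_ws v)
  simp only at h1
  have h2 := ws_fst
  have h3 := z1_pos
  have h5 := t_pos hv hd
  rw [abs_of_nonpos h2]
  unfold nm
  nlinarith

/-- the norm of the last vertex is at least `d_9 / nm z` -/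
theorem nm_ge_det {v : ℤ × ℤ} (hv : 0 < v.1) (hv2 : 0 < v.2) : dt z v ≤ nm z * nm v := by
  have h3 := z1_pos
  have h4 := z_two
  unfold dt nm
  nlinarith [mul_pos h3 hv, mul_pos h4 hv, mul_pos h4 hv2]

/-- fixed coordinates in the polygon `pol9` -/
theorem pol9_ne {u : PolyK 11} {j : Fin 11} (hj : j ≠ 9) : pol9 u j = u j := by
  unfold pol9; rw [if_neg hj]

theorem pol9_nine (u : PolyK 11) :
    pol9 u 9 = ((u 9).1 * z.1 + (u 9).2 * ws.1, (u 9).1 * z.2 + (u 9).2 * ws.2) := by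
  unfold pol9; rw [if_pos rfl]

theorem pol9_inj : Function.Injective pol9 := by
  intro u v h
  funext j
  by_cases hj : j = 9
  · subst hj
    have h1 := congrFun h 9
    rw [pol9_nine, pol9_nine, Prod.mk.injEq] at h1
    obtain ⟨a, b⟩ := h1
    have hw := ws_det
    unfold dt at hw
    ext
    · linear_combination ws.2 * a - ws.1 * b - ((u 9).1 - (v 9).1) * hw
    · linear_combination (-z.2) * a + z.1 * b - ((u 9).2 - (v 9).2) * hw
  · have h1 := congrFun h j
    rwa [pol9_ne hj, pol9_ne hj] at h1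

/-- the mean over the law `LawU` -/
theorem mL_LawU (d0 d9 p : ℕ) (f : PolyK 11 → ℝ) :
    mL (LawU d0 d9 p) f = mL (LawO (cU d0 d9) p) (fun u => f (pol9 u)) := by
  unfold mL LawU
  rw [sum_image (fun a _ b _ h => pol9_inj h), card_image_of_injective _ pol9_inj]

theorem pol9_per {p : ℕ} {f : PolyK 11 → ℝ} (hf : Pool.Agent.PENK.PerP p f) :
    Pool.Agent.PENK.PerP p (fun u => f (pol9 u)) := by
  intro u u' h
  apply hf
  intro j
  by_cases hj : j = 9
  · subst hj
    rw [pol9_nine, pol9_nine]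
    obtain ⟨a, b⟩ := h 9
    constructor
    · have e : (u 9).1 * z.1 + (u 9).2 * ws.1 - ((u' 9).1 * z.1 + (u' 9).2 * ws.1) =
        ((u 9).1 - (u' 9).1) * z.1 + ((u 9).2 - (u' 9).2) * ws.1 := by ring
      simp only
      rw [e]
      exact dvd_add (a.mul_right _) (b.mul_right _)
    · have e : (u 9).1 * z.2 + (u 9).2 * ws.2 - ((u' 9).1 * z.2 + (u' 9).2 * ws.2) =
        ((u 9).1 - (u' 9).1) * z.2 + ((u 9).2 - (u' 9).2) * ws.2 := by ring
      simp only
      rw [e]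
      exact dvd_add (a.mul_right _) (b.mul_right _)
  · rw [pol9_ne hj, pol9_ne hj]
    exact h j

/-- equidistribution of the family with fixed end factors -/
theorem equi_LawU {d0 d9 : ℕ} {O : Finset (PolyK 11)} {S : Finset ℕ} {Q η : ℝ}
    (h : EquiF O (fun u => u) (LawO (cU d0 d9)) S Q η) : EquiF O pol9 (LawU d0 d9) S Q η := by
  intro T hT hTQ f hf hf01
  have h1 := h T hT hTQ (fun p u => f p (pol9 u)) (fun p hp => pol9_per (hf p hp))
    (fun p hp u => hf01 p hp (pol9 u))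
  have h2 : ∏ p ∈ T, mL (LawU d0 d9 p) (f p) =
      ∏ p ∈ T, mL (LawO (cU d0 d9) p) (fun u => f p (pol9 u)) :=
    Finset.prod_congr rfl (fun p _ => mL_LawU d0 d9 p (f p))
  rw [h2]
  exact h1

end Pool.Agent.AQ.UPA
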